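import Mathlib
import Pool.Agent.Lib.P18dd.Fin2X

/-!
# The depth of Savitch's recursion is optimal

Recursive doubling decides with circuits of depth `2 ⌈log₂ k⌉` and polynomially many gates (AND and
OR gates of arbitrary fan-in, negations free, non-uniform) whether there is a walk of length at
most `k` from `s` to `t`. For all `k ≤ (log n) ^ A` circuits of polynomial size need depth
`Ω(log k)`, and formulas, even of depth `(log n) ^ a` for a fixed `a < 1`, need size `n ^ Ω(log k)`.
The lower bounds hold already for disjoint unions of paths, directed or undirected.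
-/

set_option autoImplicit false

namespace Pool.Agent.Results.MP_e46137_lc.DoublingDepth

/-- a digraph on `n` vertices: `E v w = true` iff there is an arc from `v` to `w` -/
abbrev Digraph (n : ℕ) : Type := Fin n → Fin n → Bool

/-- `E` has a walk from `s` to `t` with at most `k` arcs -/
def Walk {n : ℕ} (E : Digraph n) (k : ℕ) (s t : Fin n) : Prop :=
  ∃ j ≤ k, ∃ p : ℕ → Fin n, p 0 = s ∧ p j = t ∧ ∀ i < j, E (p i) (p (i + 1)) = true

/-- the functions which may be wired into a gate of level `ℓ`: an arc, the negation of an arc,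
a gate of smaller level, the negation of a gate of smaller level -/
def IsInput {n S : ℕ} (level : Fin S → ℕ) (gate : Fin S → Digraph n → Bool) (ℓ : ℕ)
    (h : Digraph n → Bool) : Prop :=
  (∃ v w, (h = fun E => E v w) ∨ h = fun E => !E v w) ∨
    ∃ g, level g < ℓ ∧ (h = gate g ∨ h = fun E => !gate g E)

/-- `f` is computed by a circuit of depth `d` with `S` gates: every gate has a level in
`0, .., d - 1` and is the AND or the OR of a set of inputs (arbitrary fan-in), `f` is the value
of one of the gates -/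
def Computes {n : ℕ} (d S : ℕ) (f : Digraph n → Bool) : Prop :=
  ∃ (level : Fin S → ℕ) (gate : Fin S → Digraph n → Bool) (out : Fin S),
    (∀ g, level g < d) ∧
    (∀ g, ∃ T : Set (Digraph n → Bool), (∀ h ∈ T, IsInput level gate (level g) h) ∧
      ((∀ E, gate g E = true ↔ ∀ h ∈ T, h E = true) ∨
        (∀ E, gate g E = true ↔ ∃ h ∈ T, h E = true))) ∧
    f = gate out

/-- `FormulaFor d L f`: the function `f` is computed by a formula (a tree) of depth at most `d` with
`L` leaves; the leaves are labelled by arcs or constants, the inner nodes are AND or OR gates of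
arbitrary fan-in, negations are free everywhere -/
inductive FormulaFor {n : ℕ} : ℕ → ℕ → (Digraph n → Bool) → Prop
  | arc (d : ℕ) (v w : Fin n) : FormulaFor d 1 fun E => E v w
  | const (d : ℕ) (b : Bool) : FormulaFor d 1 fun _ => b
  | not (d L : ℕ) (f : Digraph n → Bool) : FormulaFor d L f → FormulaFor d L fun E => !f E
  | gate (d m : ℕ) (L : Fin m → ℕ) (g : Fin m → Digraph n → Bool) (f : Digraph n → Bool) :
      0 < m → (∀ i, FormulaFor d (L i) (g i)) →
      ((∀ E, f E = true ↔ ∀ i, g i E = true) ∨ (∀ E, f E = true ↔ ∃ i, g i E = true)) →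
      FormulaFor (d + 1) (∑ i, L i) f

/-- `E` is a disjoint union of directed paths: all in- and out-degrees are at most one and there is no
closed walk -/
def Paths {n : ℕ} (E : Digraph n) : Prop :=
  (∀ v w w', E v w = true → E v w' = true → w = w') ∧
  (∀ v w w', E w v = true → E w' v = true → w = w') ∧
  ∀ (j : ℕ) (p : ℕ → Fin n), 0 < j → (∀ i < j, E (p i) (p (i + 1)) = true) → p 0 ≠ p j

/-- the underlying undirected graph, as a symmetric digraph -/
def undirected {n : ℕ} (E : Digraph n) : Digraph n := fun v w => E v w || E w v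

/-- `f` is correct on the disjoint unions of directed paths: it accepts if some walk from `s` to `t` has at
most `k` arcs and rejects if there is no walk from `s` to `t` -/
def CorrectDirected {n : ℕ} (k : ℕ) (s t : Fin n) (f : Digraph n → Bool) : Prop :=
  ∀ E, Paths E → (Walk E k s t → f E = true) ∧ ((∀ j, ¬ Walk E j s t) → f E = false)

/-- `f` is correct on the disjoint unions of undirected paths: it accepts if the distance of `s` and `t` is
at most `k` and rejects if `s` and `t` are not connected -/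
def CorrectUndirected {n : ℕ} (k : ℕ) (s t : Fin n) (f : Digraph n → Bool) : Prop :=
  ∀ E, Paths E → (Walk (undirected E) k s t → f (undirected E) = true) ∧
    ((∀ j, ¬ Walk (undirected E) j s t) → f (undirected E) = false)

/-- `f` decides for all digraphs whether there is a walk from `s` to `t` with at most `k` arcs -/
def Decides {n : ℕ} (k : ℕ) (s t : Fin n) (f : Digraph n → Bool) : Prop :=
  ∀ E, f E = true ↔ Walk E k s t

theorem circ_of_computes {n d S : ℕ} {f : Digraph n → Bool} (h : Computes d S f) :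
    P28cd.Circ (P28cd.Lits n) d S f := by
  obtain ⟨level, gate, out, h1, h2, h3⟩ := h
  refine ⟨level, gate, out, h1, ?_, h3⟩
  intro g
  obtain ⟨T, hT, hg⟩ := h2 g
  exact ⟨T, fun h hh => hT h hh, hg⟩

theorem computes_of_circ {n d S : ℕ} {f : Digraph n → Bool}
    (h : P28cd.Circ (P28cd.Lits n) d S f) : Computes d S f := by
  obtain ⟨level, gate, out, h1, h2, h3⟩ := h
  refine ⟨level, gate, out, h1, ?_, h3⟩
  intro g
  obtain ⟨T, hT, hg⟩ := h2 g
  exact ⟨T, fun h hh => hT hh, hg⟩

theorem fm_of_formula {n d L : ℕ} {f : Digraph n → Bool} (h : FormulaFor d L f) :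
    P18dd.Fm (P18dd.LitC n) d L f := by
  induction h with
  | arc d v w => exact P18dd.Fm.lit d _ (Or.inl ⟨v, w, Or.inl rfl⟩)
  | const d b => exact P18dd.Fm.lit d _ (Or.inr ⟨b, rfl⟩)
  | not d L f _ ih => exact P18dd.FmCAux.fm_neg P18dd.litC_not ih
  | gate d m L g f hm _ hf ih => exact P18dd.Fm.gate d m L g f hm ih hf

theorem formula_of_fm {n d L : ℕ} {f : Digraph n → Bool} (h : P18dd.Fm (P18dd.LitC n) d L f) :
    FormulaFor d L f := by
  induction h with
  | lit d f hf =>
    rcases hf with ⟨v, w, rfl | rfl⟩ | ⟨b, rfl⟩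
    · exact FormulaFor.arc d v w
    · exact FormulaFor.not d 1 _ (FormulaFor.arc d v w)
    · exact FormulaFor.const d b
  | gate d m L g f hm _ hf ih => exact FormulaFor.gate d m L g f hm ih hf

/-- **Theorem.** (1) Let `0 < a < 1`. There are `c > 0`, `k₀`, `n₀` such that for all `n ≥ n₀`, `k ≥ k₀`,
distinct `s, t` and `d ≤ (log n) ^ a` every formula of depth `d` which is correct on the disjoint
unions of directed paths, or on those of undirected paths, has at least
`n ^ (c * min (log k) (log (log n)))` leaves.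
(2) In the same way circuits of depth `d` have at least `n ^ (c * min (log k) (log (log n)) / d)` gates.
(3) For all real `A ≥ 1` and `C > 0` there are `c > 0`, `k₀`, `n₀` such that for `n ≥ n₀`,
`k₀ ≤ k ≤ (log n) ^ A` every circuit with at most `n ^ C` gates which is correct as in (1) has depth
at least `c * log k`.
(4) For `2 ≤ k ≤ n`, `4 ≤ n` some circuit of depth `2 ⌈log₂ k⌉` with at most `n ^ 6` gates decides
for all digraphs whether there is an `s`-`t` walk with at most `k` arcs.
(5) For all `n`, `k` some formula of depth `2 ⌈log₂ k⌉` with at most `(2 n) ^ ⌈log₂ k⌉` leaves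
decides this. -/
theorem result :
    (∀ a : ℝ, 0 < a → a < 1 → ∃ c : ℝ, 0 < c ∧ ∃ k₀ n₀ : ℕ, ∀ n ≥ n₀, ∀ k ≥ k₀,
      ∀ s t : Fin n, s ≠ t → ∀ d : ℕ, (d : ℝ) ≤ Real.log n ^ a →
        ∀ (L : ℕ) (f : Digraph n → Bool), FormulaFor d L f →
          (CorrectDirected k s t f ∨ CorrectUndirected k s t f) →
          (n : ℝ) ^ (c * min (Real.log k) (Real.log (Real.log n))) ≤ L) ∧
    (∀ a : ℝ, 0 < a → a < 1 → ∃ c : ℝ, 0 < c ∧ ∃ k₀ n₀ : ℕ, ∀ n ≥ n₀, ∀ k ≥ k₀,
      ∀ s t : Fin n, s ≠ t → ∀ d : ℕ, (d : ℝ) ≤ Real.log n ^ a →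
        ∀ (S : ℕ) (f : Digraph n → Bool), Computes d S f →
          (CorrectDirected k s t f ∨ CorrectUndirected k s t f) →
          (n : ℝ) ^ (c * min (Real.log k) (Real.log (Real.log n)) / d) ≤ S) ∧
    (∀ A : ℝ, 1 ≤ A → ∀ C : ℝ, 0 < C → ∃ c : ℝ, 0 < c ∧ ∃ k₀ n₀ : ℕ, ∀ n ≥ n₀, ∀ k ≥ k₀,
      (k : ℝ) ≤ Real.log n ^ A → ∀ s t : Fin n, s ≠ t →
        ∀ (d S : ℕ) (f : Digraph n → Bool), Computes d S f →
          (CorrectDirected k s t f ∨ CorrectUndirected k s t f) →
          (S : ℝ) ≤ (n : ℝ) ^ C → c * Real.log k ≤ d) ∧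
    (∀ n k : ℕ, 2 ≤ k → k ≤ n → 4 ≤ n → ∀ s t : Fin n, ∃ (S : ℕ) (f : Digraph n → Bool),
      Computes (2 * Nat.clog 2 k) S f ∧ Decides k s t f ∧ S ≤ n ^ 6) ∧
    (∀ n k : ℕ, ∀ s t : Fin n, ∃ (L : ℕ) (f : Digraph n → Bool),
      FormulaFor (2 * Nat.clog 2 k) L f ∧ Decides k s t f ∧ L ≤ (2 * n) ^ Nat.clog 2 k) := by
  refine ⟨?_, ?_, ?_, ?_, ?_⟩
  · intro a ha0 ha
    obtain ⟨c, hc, k₀, n₀, h⟩ := P18dd.lower_formula a ha0 ha
    exact ⟨c, hc, k₀, n₀, fun n hn k hk s t hst d hd L f hf hs =>
      h n hn k hk s t hst d hd L f (fm_of_formula hf) hs⟩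
  · intro a ha0 ha
    obtain ⟨c, hc, k₀, n₀, h⟩ := P18dd.lower_circuit a ha0 ha
    exact ⟨c, hc, k₀, n₀, fun n hn k hk s t hst d hd S f hf hs =>
      h n hn k hk s t hst d hd S f (circ_of_computes hf) hs⟩
  · intro A hA C hC
    obtain ⟨c, hc, k₀, n₀, h⟩ := P18dd.depth_poly A hA C hC
    exact ⟨c, hc, k₀, n₀, fun n hn k hk hkA s t hst d S f hf hs hS =>
      h n hn k hk hkA s t hst d S f (circ_of_computes hf) hs hS⟩
  · intro n k hk hkn hn s t
    obtain ⟨S, f, h1, h2, h3⟩ := P18dd.upper n k hk hkn hn s t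
    exact ⟨S, f, computes_of_circ h1, h2, h3⟩
  · intro n k s t
    obtain ⟨L, f, h1, h2, h3⟩ := P18dd.upper_formula n k s t
    exact ⟨L, f, formula_of_fm h1, h2, h3⟩

end Pool.Agent.Results.MP_e46137_lc.DoublingDepth
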