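import Pool.Agent.Lib.Pe46137i.All

/-!
# Directed reachability and forbidden induced digraphs

Loops of digraphs are ignored, except that oriented and acyclic digraphs have none.  A class of
digraphs is at the first level if one first-order formula over the arc relation defines
reachability on its finite members.  It is at the second level if one formula of first-order
logic with symmetric transitive closure does, and the class contains all symmetric digraphs, or all
induced subdigraphs of the directed path, or all induced subdigraphs of the thick path.  It is at
the third level if one first-order reduction maps reachability on all finite ordered digraphs to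
reachability on the class.

* All digraphs without an induced `H k`, for any family `H k` of finite digraphs, all without or
  all with a double arc: the level is the first if some `H k` has no arcs, otherwise the second if
  some `H k` consists of disjoint single arcs and isolated vertices, otherwise the third.
* Oriented graphs without an induced `K`, for any connected finite digraph `K` other than
  `2 ← 1 ← 0 → 3 → 4` and its reversal: the first if `K` is contained in the directed path on
  three vertices, otherwise the second if `K` is contained in the directed path on four vertices,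
  in `2 ← 1 ← 0 → 3` or in its reversal, otherwise the third.
* Acyclic digraphs without an induced `K`, for any finite digraph `K`: the first if `K` is an
  induced subdigraph of a directed path, otherwise the second if every component of `K` is an
  oriented path with at most one change of direction, otherwise the third.
-/

namespace Pool.Agent.Results.MP_e46137_lc.InducedTrichotomy

open Pool.Agent.Lib.Pe46137h7 Pool.Agent.Lib.Pe46137i Pool.Agent.Lib.Pe46137h9
open Pool.Agent.Lib.Pe46137C

/-- The class `C` contains all symmetric digraphs, or all induced subdigraphs of the directed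
path on the natural numbers, or all induced subdigraphs of the thick path. -/
def Rich (C : ∀ V : Type, (V → V → Prop) → Prop) : Prop :=
  (∀ (V : Type) (E : V → V → Prop), (∀ x y, E x y → E y x) → C V E) ∨
  (∀ (V : Type) (E : V → V → Prop), InPath E → C V E) ∨
  ∀ (V : Type) (E : V → V → Prop), InThick E → C V E

/-- Reachability on the finite digraphs of the class `C` is first-order definable if `P` holds;
otherwise, if `Q` holds, it is definable with symmetric transitive closure, and `C` is rich; if
`Q` does not hold then reachability on all finite ordered digraphs reduces to it. -/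
def Trichotomy (P Q : Prop) (C : ∀ V : Type, (V → V → Prop) → Prop) : Prop :=
  (P → ReachFO C) ∧ (Q → ¬ P → ReachDef C ∧ Rich C) ∧ (¬ Q → ∃ r : DReduction, r.Into C)

theorem result :
    (∀ (ι : Type) (h : ι → ℕ) (H : ∀ k, Fin (h k) → Fin (h k) → Prop),
      ((∀ k, ¬ HasDouble (H k)) ∨ ∀ k, HasDouble (H k)) →
        Trichotomy (∃ k, Arcless (H k)) (∃ k, IsMatch (H k)) fun _ E => ∀ k, ¬ HasInd (H k) E) ∧
    (∀ (h : ℕ) (K : Fin h → Fin h → Prop),
      Conn K → ¬ (h = 5 ∧ (HasInd K O22 ∨ HasInd K I22)) →
        Trichotomy (HasInd K P3) (HasInd K P4 ∨ HasInd K O21 ∨ HasInd K I21)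
          fun _ E => Oriented E ∧ ¬ HasInd K E) ∧
    ∀ (h : ℕ) (K : Fin h → Fin h → Prop),
      Trichotomy (HasInd K PathArc) (HasSub (Irr K) Zig) fun _ E => Acyclic E ∧ ¬ HasInd K E := by
  obtain ⟨h1, h2, h3⟩ := classification
  refine ⟨fun ι h H hH => ?_, fun h K hc hne => ?_, fun h K => ?_⟩
  · obtain ⟨h4, h5, h6⟩ := h1 h H hH
    exact ⟨h4, fun hQ hP => ⟨(h5 hQ hP).1, Or.inl (h5 hQ hP).2⟩, h6⟩
  · obtain ⟨h4, h5, h6⟩ := h2 K hc hne
    exact ⟨h4, fun hQ hP => ⟨(h5 hQ hP).1, Or.inr (h5 hQ hP).2⟩, h6⟩
  · obtain ⟨h4, h5, h6⟩ := h3 K
    exact ⟨h4, fun hQ hP => ⟨(h5 hQ hP).1, Or.inr (Or.inl (h5 hQ hP).2)⟩, h6⟩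

end Pool.Agent.Results.MP_e46137_lc.InducedTrichotomy
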