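import Pool.Agent.Lib.Pe46137Y.FinalY

/-!
The exact monotone exponent of reachability in topologically sorted digraphs.

The vertices are `0, …, n - 1` in this order and all arcs go from smaller to larger vertices; `s` is
the first vertex and `t` the last one.  `Phi x y` is the maximum of `u * (x - u)` over `0 ≤ u ≤ y`,
that is `y * (x - y)` if `2 * y ≤ x` and `x ^ 2 / 4` otherwise.  Monotone formula size, monotone
depth, the number of states of monotone switching networks and the dimension of monotone span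
programs over every field are all equal to `2 ^ Phi (log n) (log ℓ)` up to a factor
`2 ^ (C (log n) ^ (5 / 3))` (the depth: `Phi (log n) (log ℓ)` up to `C (log n) ^ (5 / 3)`), for
every length `ℓ ≤ n`; all logarithms are to base two.
-/

namespace Pool.Agent.Lib.Reserve.MP_e46137_lc.MonotoneExponent

open Pool.Agent.Lib.Pe46137Y

theorem result : ∃ C : ℝ, 0 < C ∧ ∀ (n : ℕ) (s t : Fin n), s ≠ t → (∀ v, s ≤ v ∧ v ≤ t) →
    ∀ ℓ : ℕ, 1 ≤ ℓ → ℓ ≤ n →
    |Real.logb 2 (sortedFormulaSize s t ℓ) - Phi (Real.logb 2 n) (Real.logb 2 ℓ)| ≤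
      C * Real.logb 2 n ^ (5 / 3 : ℝ) ∧
    |(sortedFormulaDepth s t ℓ : ℝ) - Phi (Real.logb 2 n) (Real.logb 2 ℓ)| ≤
      C * Real.logb 2 n ^ (5 / 3 : ℝ) ∧
    |Real.logb 2 (sortedNetworkStates s t ℓ) - Phi (Real.logb 2 n) (Real.logb 2 ℓ)| ≤
      C * Real.logb 2 n ^ (5 / 3 : ℝ) ∧
    ∀ (K : Type) [Field K],
      |Real.logb 2 (sortedSpanDim s t ℓ K) - Phi (Real.logb 2 n) (Real.logb 2 ℓ)| ≤
        C * Real.logb 2 n ^ (5 / 3 : ℝ) :=
  main

end Pool.Agent.Lib.Reserve.MP_e46137_lc.MonotoneExponent
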