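import Pool.Agent.Lib.MTS.SuperP
import Pool.Agent.Lib.MTS.Upper

/-!
# MP_e46137_lc: the exact time-space tradeoff of monotone computation for s-t reachability

A monotone machine has `S` bits of memory (`MTS.Mach`); every step reads one arc variable and applies
an arbitrary monotone map to the memory and this variable.  Let `d ≥ 3` and `κ = ⌈log₂ d⌉`.

* Correlation bound: for every machine, the probability that it accepts a random path with `d` edges
  from `s` to `t` exceeds the probability that it accepts a random graph consisting of two cliques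
  which separate `s` from `t` by at most `T * min(S, n) ^ (κ - 2) * (c log n) ^ c / n ^ κ`.
* Lower bound: if a probabilistic machine with two-sided error `1 / 3` accepts the undirected graphs
  on `n` vertices in which `t` has distance at most `d` from `s`, and rejects those in which `s` and
  `t` are not connected, then `n ^ κ ≤ T * min(S, n) ^ (κ - 2) * (c log n) ^ c`.
* Upper bound: for all `1 ≤ B ≤ n` a monotone straight line program with at most `c B` registers and
  `T * B ^ (κ - 2) ≤ c n ^ κ` decides distance at most `d` in all directed graphs.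
* So with `n ^ (1 - δ)` bits of memory no polynomial number of steps suffices for reachability.
-/

namespace Pool.Agent.Lib.Reserve.MP_e46137_lc.MonotoneTimeSpace

open MTS

theorem result :
    (∀ d : ℕ, 3 ≤ d → ∃ c : ℕ,
      (∀ (n S T : ℕ) (s t : Fin n), s ≠ t → ∀ (M : Mach (Fin n × Fin n) S) (out : Fin S),
        accPath M out T (d - 1) s t - accCut M out T s t ≤
          T * ((min S n : ℕ) : ℝ) ^ (Nat.clog 2 d - 2) * (c * Real.log n) ^ c /
            (n : ℝ) ^ (Nat.clog 2 d)) ∧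
      (∀ (n S T : ℕ) (s t : Fin n), s ≠ t →
        ∀ (Ω : Type) [Fintype Ω] (p : Ω → ℝ), (∀ ω, 0 ≤ p ω) → ∑ ω, p ω = 1 →
        ∀ (M : Ω → Mach (Fin n × Fin n) S) (out : Ω → Fin S), DecidesProb p M out T d s t →
          (n : ℝ) ^ (Nat.clog 2 d) ≤
            T * ((min S n : ℕ) : ℝ) ^ (Nat.clog 2 d - 2) * (c * Real.log n) ^ c) ∧
      (∀ (n B : ℕ) (s t : Fin n), 1 ≤ B → B ≤ n →
        ∃ (S : ℕ) (M : Mach (Fin n × Fin n) S) (T : ℕ) (out : Fin S), IsSLP M ∧ S ≤ c * B ∧
          T * B ^ (Nat.clog 2 d - 2) ≤ c * n ^ (Nat.clog 2 d) ∧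
          ∀ G : Fin n → Fin n → Bool, M.run (fun e => G e.1 e.2) T out = true ↔
            ∃ l ≤ d, HasWalk G l s t)) ∧
    (∀ C δ : ℝ, 0 < δ → ∃ d n₀ : ℕ, ∀ n ≥ n₀, ∀ (S T : ℕ) (s t : Fin n), s ≠ t →
      ∀ (Ω : Type) [Fintype Ω] (p : Ω → ℝ), (∀ ω, 0 ≤ p ω) → ∑ ω, p ω = 1 →
      ∀ (M : Ω → Mach (Fin n × Fin n) S) (out : Ω → Fin S), DecidesProb p M out T d s t →
        (S : ℝ) ≤ (n : ℝ) ^ (1 - δ) → (n : ℝ) ^ C < T) := by
  refine ⟨fun d hd => ?_, fun C δ hδ => superpoly_prob C δ hδ⟩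
  obtain ⟨k, hk⟩ : ∃ k, Nat.clog 2 d = k + 2 := by
    have h1 : 2 ≤ Nat.clog 2 d := by
      by_contra h
      have h2 : d ≤ 2 ^ Nat.clog 2 d := Nat.le_pow_clog (by norm_num) d
      have h3 : 2 ^ Nat.clog 2 d ≤ 2 ^ 1 := Nat.pow_le_pow_right (by norm_num) (by omega)
      omega
    exact ⟨Nat.clog 2 d - 2, by omega⟩
  have hk2 : Nat.clog 2 d - 2 = k := by omega
  have hlow : 2 ^ (k + 1) ≤ d - 1 := by
    have h1 := Nat.pow_pred_clog_lt_self (b := 2) (by norm_num) (x := d) (by omega)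
    rw [hk] at h1
    have h2 : (k + 2).pred = k + 1 := rfl
    rw [h2] at h1
    omega
  have hup : d ≤ 2 ^ (k + 2) := by
    rw [← hk]
    exact Nat.le_pow_clog (by norm_num) d
  rw [hk2, hk]
  obtain ⟨c₁, hc₁⟩ := adv k (d - 1) hlow
  obtain ⟨c₁', hc₁'⟩ := adv 0 (d - 1) (by omega)
  obtain ⟨c₂, hc₂⟩ := upper k
  obtain ⟨c₃, hc₃⟩ := lower_prob k (d - 1) hlow
  obtain ⟨c₃', hc₃'⟩ := lower_prob 0 (d - 1) (by omega)
  have hd1 : d - 1 + 1 = d := by omega
  rw [hd1] at hc₃ hc₃'
  obtain ⟨c, hc⟩ : ∃ c, c₁ + c₁' + c₂ + c₃ + c₃' + 2 = c := ⟨_, rfl⟩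
  -- larger constants
  have hmono : ∀ (n c' : ℕ), 2 ≤ n → c' ≤ c →
      ((c' : ℝ) * Real.log n) ^ c' ≤ ((c : ℝ) * Real.log n) ^ c := by
    intro n c' hn hc'
    have h5 := Real.log_two_gt_d9
    have h6 : Real.log 2 ≤ Real.log n := by
      apply Real.log_le_log (by norm_num)
      exact_mod_cast hn
    have hlog : (1 / 2 : ℝ) ≤ Real.log n := by linarith
    have h7 : (c' : ℝ) * Real.log n ≤ (c : ℝ) * Real.log n := by
      refine mul_le_mul_of_nonneg_right ?_ (by linarith)
      exact_mod_cast hc'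
    have h8 : (1 : ℝ) ≤ (c : ℝ) * Real.log n := by
      have h9 : (2 : ℝ) ≤ (c : ℝ) := by exact_mod_cast (by omega : 2 ≤ c)
      nlinarith
    have h10 : (0 : ℝ) ≤ (c' : ℝ) * Real.log n := mul_nonneg (Nat.cast_nonneg _) (by linarith)
    calc ((c' : ℝ) * Real.log n) ^ c' ≤ ((c : ℝ) * Real.log n) ^ c' := pow_le_pow_left₀ h10 h7 _
      _ ≤ ((c : ℝ) * Real.log n) ^ c := pow_le_pow_right₀ h8 hc'
  have hn2 : ∀ {n : ℕ} {s t : Fin n}, s ≠ t → 2 ≤ n := by
    intro n s t hst
    by_contra h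
    apply hst
    apply Fin.ext
    have := s.2
    have := t.2
    omega
  refine ⟨c, ?_, ?_, ?_⟩
  · intro n S T s t hst M out
    have hn := hn2 hst
    rcases le_total S n with hSn | hSn
    · rw [min_eq_left hSn]
      refine (hc₁ n S T s t hst M out).trans ?_
      refine div_le_div_of_nonneg_right ?_ (by positivity)
      exact mul_le_mul_of_nonneg_left (hmono n c₁ hn (by omega)) (by positivity)
    · rw [min_eq_right hSn]
      refine (hc₁' n S T s t hst M out).trans ?_
      have hn0 : (0 : ℝ) < (n : ℝ) := by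
        have : 0 < n := by omega
        exact_mod_cast this
      rw [div_le_div_iff₀ (by positivity) (by positivity), pow_zero, mul_one, zero_add]
      have h1 := hmono n c₁' hn (by omega)
      calc (T : ℝ) * ((c₁' : ℝ) * Real.log n) ^ c₁' * (n : ℝ) ^ (k + 2)
          ≤ (T : ℝ) * ((c : ℝ) * Real.log n) ^ c * (n : ℝ) ^ (k + 2) :=
            mul_le_mul_of_nonneg_right (mul_le_mul_of_nonneg_left h1 (Nat.cast_nonneg T))
              (by positivity)
        _ = (T : ℝ) * (n : ℝ) ^ k * ((c : ℝ) * Real.log n) ^ c * (n : ℝ) ^ 2 := by ring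
  · intro n S T s t hst Ω _ p hp0 hp1 M out hM
    have hn := hn2 hst
    rcases le_total S n with hSn | hSn
    · rw [min_eq_left hSn]
      refine (hc₃ n S T s t hst Ω p hp0 hp1 M out hM).trans ?_
      exact mul_le_mul_of_nonneg_left (hmono n c₃ hn (by omega)) (by positivity)
    · rw [min_eq_right hSn]
      have h0 := hc₃' n S T s t hst Ω p hp0 hp1 M out hM
      rw [pow_zero, mul_one, zero_add] at h0
      have h1 := hmono n c₃' hn (by omega)
      calc (n : ℝ) ^ (k + 2) = (n : ℝ) ^ 2 * (n : ℝ) ^ k := by ring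
        _ ≤ (T : ℝ) * ((c₃' : ℝ) * Real.log n) ^ c₃' * (n : ℝ) ^ k :=
            mul_le_mul_of_nonneg_right h0 (by positivity)
        _ ≤ (T : ℝ) * ((c : ℝ) * Real.log n) ^ c * (n : ℝ) ^ k :=
            mul_le_mul_of_nonneg_right (mul_le_mul_of_nonneg_left h1 (Nat.cast_nonneg T))
              (by positivity)
        _ = (T : ℝ) * (n : ℝ) ^ k * ((c : ℝ) * Real.log n) ^ c := by ring
  · intro n B s t hB hBn
    obtain ⟨S, hS, M, T, out, h1, h2, h3⟩ := hc₂ n B hB hBn d hup s t
    exact ⟨S, M, T, out, h1, hS.trans (Nat.mul_le_mul_right _ (by omega)),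
      h2.trans (Nat.mul_le_mul_right _ (by omega)), h3⟩

end Pool.Agent.Lib.Reserve.MP_e46137_lc.MonotoneTimeSpace
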