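import Pool.Agent.Lib.Pe46137.LongE

/-!
Size against the number of negated variables read, for switching networks deciding directed
reachability, and for arbitrary reductions of directed to undirected reachability.

`states 𝒢 s t` is the least number of states of a switching network deciding `s`-`t` reachability
on the digraphs in `𝒢`; `limitedStates 𝒢 s t M k` is the least number of states if in addition
every accepted digraph has an accepting walk that uses at most `k` distinct negated variables of
the arc set `M`. Some `r` vertices meeting all but `k` arcs of `M` make `limitedStates` at most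
`states`, up to the factor `2 ^ O((log r) ^ 2)` and a constant power; if no `r` vertices meet all
but `k * r` arcs of `M`, then `limitedStates` is at least `2 ^ Ω((log r) ^ 2)`, even if all arcs
outside `M` are known. The same lower bound holds for the number `m` of vertices of any reduction
to undirected reachability in which the edges of an accepting walk are certified by at most `ρ`
present arcs of `M` each, and at most `k` absent arcs of `M` altogether, if `ρ` is at most a small
power of `r`.
-/

namespace Pool.Agent.Results.MP_e46137_lc.NegationTradeoff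

open Pool.Agent.Lib.Pe46137

theorem result : ∃ C : ℝ, 0 < C ∧ ∀ (n : ℕ) (s t : Fin n), s ≠ t →
    ∀ (M : Set (Fin n × Fin n)) (r k : ℕ),
      (Coverable M r k → ∀ 𝒢 : Set (Set (Fin n × Fin n)), Hereditary 𝒢 →
        (∀ G, SparseDag G → G ∈ 𝒢) →
        Real.logb 2 (limitedStates 𝒢 s t M k) ≤
          C * (Real.logb 2 (states 𝒢 s t) + Real.logb 2 r ^ 2)) ∧
      (¬ Coverable M r (k * r) → ∃ B : Set (Fin n × Fin n), Disjoint B M ∧
        ∀ 𝒢 : Set (Set (Fin n × Fin n)), (∀ G, SparseDag G → G \ M = B → G ∈ 𝒢) →
        Real.logb 2 (states 𝒢 s t) + Real.logb 2 r ^ 2 ≤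
          C * (1 + Real.logb 2 (limitedStates 𝒢 s t M k)) ∧
        ∀ (m ρ : ℕ) (H : Reduction (Fin n) (Fin m)), H.Correct 𝒢 s t → H.Local 𝒢 s t M ρ k →
          Real.logb 2 r ^ 2 ≤ C * (1 + Real.logb 2 m + Real.logb 2 ρ ^ 2)) := by
  refine ⟨400000, by norm_num, fun n s t hst M r k => ⟨fun hc 𝒢 h1 h2 => ?_, fun hc => ?_⟩⟩
  · have h3 := (tradeoff hst M r k).1 hc 𝒢 h1 h2
    have hpos := states_pos 𝒢 s t
    have h4 : 0 ≤ Real.logb 2 (states 𝒢 s t) :=
      Real.logb_nonneg (by norm_num) (by exact_mod_cast hpos)
    nlinarith [sq_nonneg (Real.logb 2 (r : ℝ))]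
  · obtain ⟨B, hB, h⟩ := tradeoffR hst M r k hc
    refine ⟨B, hB, fun 𝒢 h𝒢 => ⟨(h 𝒢 h𝒢).2, fun m ρ H hcor hloc => ?_⟩⟩
    have h3 := (h 𝒢 h𝒢).1 m ρ H hcor hloc
    have h4 : 0 ≤ Real.logb 2 (m : ℝ) := by
      refine Real.logb_nonneg (by norm_num) ?_
      exact_mod_cast Fin.pos H.source
    nlinarith [sq_nonneg (Real.logb 2 (ρ : ℝ))]

end Pool.Agent.Results.MP_e46137_lc.NegationTradeoff
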