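import Pool.Agent.Lib.NotI.Final

namespace Pool.Agent.Results.MP_e46137_lc.NegationsOfIS

open Pool.Agent.Lib.Pe46137 Pool.Agent.Lib.Pe46137X MonSize NotG NotI

/-- **How many negations the theorem of Immerman and Szelepcsényi needs.** The problem: `L` digraphs
on `Fin n` are given, accept if `t` is unreachable from `s` in all of them, reject if one of them has
a walk of at most `ℓ` arcs from `s` to `t`. It is solved by adaptive programs which ask `k j`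
nondeterministic networks over negated variables in parallel in round `j`; `W = ∏ (k j + 1)`.
If `W ≤ L` the questions save nothing. If `W` exceeds the number `L * n ^ 2` of variables, then
polynomial size is enough. Then the average case, the same lower bounds for larger `W` (`L = 1` is
reachability itself), and the threshold for `L = n ^ a`. -/
theorem result : ∃ (C : ℝ) (A : ℕ), 0 < C ∧
    (∀ (n : ℕ) (s t : Fin n), s ≠ t → ∀ L : ℕ, 1 ≤ L → ∀ (ks : List ℕ) (W : ℕ),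
      W = (ks.map (· + 1)).prod →
      (L * n ^ 2 + 1 ≤ W → Adaptive (ByCo ((L * n) ^ A)) ks
        (fun X : Set (Var L n) => ∀ i, ¬ Reachable (graph X i) s t)) ∧
      ∀ ℓ : ℕ, 1 ≤ ℓ → ℓ ≤ n → ∀ 𝒢 : Set (Fin n × Fin n) → Prop, (∀ G, Undirected G → 𝒢 G) →
        (2 ≤ L → W ≤ L → |Real.logb 2 (certSize L 𝒢 ks s t ℓ) - mainTerm n ℓ| ≤
          C * (errTerm n ℓ + Real.logb 2 L)) ∧
        (2 ≤ L → C * Real.logb 2 n ^ 11 * ℓ ≤ n → ∀ (m : ℕ) (f : Set (Var L n) → Prop),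
          Adaptive (ByCo m) ks f → advL (fun X => ¬ f X) ℓ s t (pathEdges s t) cutEdges ≤
            ((W : ℝ) - 1) / L + W * m * (2 : ℝ) ^ (-(mainTerm n ℓ - C * errTerm n ℓ))) ∧
        (∀ n' ℓ' K : ℕ, 1 ≤ ℓ' → ℓ' ≤ ℓ → ℓ' ≤ n' → K * n' ≤ n → 2 ≤ L * K → W ≤ L * K →
          mainTerm n' ℓ' - C * (errTerm n' ℓ' + Real.logb 2 (L * K)) ≤
            Real.logb 2 (certSize L 𝒢 ks s t ℓ))) ∧
    (∀ (a B : ℕ) (ε : ℝ), 0 < ε → ∃ n₀ : ℕ, ∀ n : ℕ, n₀ ≤ n → ∀ s t : Fin n, s ≠ t →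
      ∀ ks : List ℕ, (((ks.map (· + 1)).prod : ℕ) : ℝ) ≤ (n : ℝ) ^ ((a : ℝ) + 1 - ε) →
      ∀ f : Set (Var (n ^ a) n) → Prop, Adaptive (ByCo (n ^ B)) ks f →
        ¬ CertifiesOn Undirected f s t n) := by
  obtain ⟨c, hc, hadv⟩ := adv_prop
  obtain ⟨C, A, hC, h⟩ := NotI.final hc hadv
  refine ⟨C, A, hC, ?_, fun a B ε hε => threshold hc hadv a B ε hε⟩
  intro n s t hst L hL ks W hW
  obtain ⟨h1, h2⟩ := h n s t hst L hL ks W hW
  refine ⟨h1, fun ℓ hℓ hℓn 𝒢 h𝒢 => ?_⟩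
  obtain ⟨h3, h4, h5⟩ := h2 ℓ hℓ hℓn 𝒢 h𝒢
  refine ⟨fun _ => h3, fun _ => h4, fun n' ℓ' K hℓ' hℓℓ' hℓn' hKn hLK hWK => ?_⟩
  have hK : 1 ≤ K := by
    rcases Nat.eq_zero_or_pos K with h0 | h0
    · rw [h0] at hLK
      omega
    · exact h0
  exact h5 n' ℓ' K hℓ' hℓℓ' hℓn' hK hKn hWK

end Pool.Agent.Results.MP_e46137_lc.NegationsOfIS
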