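import Pool.Agent.Lib.NTh.Final

/-!
The exact noise threshold for directed reachability.

Noise `c`: to an arbitrary digraph `G` on `n` vertices each ordered pair is added as an arc
independently with probability `c / n`.  Up to `c = 1` (included) reachability in `G` with noise is as
hard as reachability itself, for error probabilities as large as `1 / 2 - n ^ (-b)`; above `c = 1`
branching programs of polynomial size err with probability at most `n ^ (-A)`, for every digraph `G`.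
Without negations the same threshold holds unconditionally.
-/

namespace Pool.Agent.Lib.Reserve.MP_e46137_lc.NoiseThreshold

open Pool.Agent.Lib.Pe46137 Pool.Agent.Lib.Pe46137X Pool.Agent.Lib.NTh

theorem result :
    (∀ c b : ℝ, 0 ≤ c → 0 < b → (c < 1 ∧ b < 1 ∨ c = 1 ∧ b < 1 / 2) →
      (Easy c (fun n => 1 / 2 - (n : ℝ) ^ (-b)) ↔ Exact)) ∧
    (∀ c A : ℝ, 1 < c → Easy c (fun n => (n : ℝ) ^ (-A)) ∧
      ∃ K N : ℕ, ∀ n ≥ N, ∀ s t : Fin n, s ≠ t → ∃ f, BP (n ^ K) f ∧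
        ∀ q : Fin n × Fin n → ℝ, (∀ e, c / n ≤ q e ∧ q e ≤ 1) →
          prob q (Wrong f s t) ≤ (n : ℝ) ^ (-A)) ∧
    (∀ c a : ℝ, 0 ≤ c → 0 < a → (Easy c (fun n => Real.exp (-(n : ℝ) ^ a)) ↔ Exact)) ∧
    (∀ c b : ℝ, 0 ≤ c → 0 < b → (c < 1 ∧ b < 1 ∨ c = 1 ∧ b < 1 / 2) →
      ∃ κ : ℝ, 0 < κ ∧ ∃ N : ℕ, ∀ n ≥ N, ∀ s t : Fin n, s ≠ t →
        (∀ (m : ℕ) (T : SwitchingNetwork (Fin n × Fin n) (Fin m)), IsMonotone T →
          (∀ G, prob (fun _ : Fin n × Fin n => c / n)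
            (fun R => Wrong (fun H => T.Connects H Hᶜ) s t (G ∪ R)) ≤ 1 / 2 - (n : ℝ) ^ (-b)) →
          κ * Real.log n ^ 2 ≤ Real.log m) ∧
        ∀ F : Formula (Fin n),
          (∀ G, prob (fun _ : Fin n × Fin n => c / n)
            (fun R => Wrong F.Eval s t (G ∪ R)) ≤ 1 / 2 - (n : ℝ) ^ (-b)) →
          κ * Real.log n ^ 2 ≤ Real.log F.leaves) ∧
    (∀ c ε : ℝ, 1 < c → 0 < ε → ∃ K N : ℕ, ∀ n ≥ N, ∀ s t : Fin n, s ≠ t →
      ∃ F : Formula (Fin n), F.leaves ≤ n ^ K ∧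
        ∀ G, prob (fun _ : Fin n × Fin n => c / n)
          (fun R => Wrong F.Eval s t (G ∪ R)) ≤ ε) :=
  main

end Pool.Agent.Lib.Reserve.MP_e46137_lc.NoiseThreshold
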