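import Pool.Agent.Lib.MTV.Main

/-!
The space needed to certify unreachability nondeterministically, and how many present arcs a
certificate must rely on.

The definitions are in `Pool/Agent/Lib/MTU/Cert.lean` (namespace `Cert`) and, for deterministic
monotone machines and the functions `lam`, `kap`, `phi`, `err`, in `Pool/Agent/Lib/MTX/Model.lean` and
`Pool/Agent/Lib/MTX/ModelA.lean` (namespace `SharpTS`).

`Cert.Mach n W`: nondeterministic (nonuniform) machine for digraphs on `Fin n` with the finite set `W`
of states; whether it may go from the state `w` to the state `w'` in step `t` is an arbitrary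
condition on the arcs incident to one vertex (which may depend on `t`, `w`, `w'`).  `Clockless`: the
possible steps do not depend on `t`.  `Accepts T G`: some computation of `T` steps on `G` ends in an
accepting state.  `AcceptsUsing T m G`: some accepting computation of `T` steps on `G` relies on the
presence of at most `m` arcs: there is a set of at most `m` arcs of `G` such that it stays a
computation if any other arcs are removed from `G`.  `cutProb s t A`, `pathProb d s t A`: the
probability of `A` for the union of two cliques which separate `s` from `t`, for a random cut, and for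
a random undirected path with `d` edges from `s` to `t`.  `Certifies p M T d s t δ`: the probability
that the machine `M ω` has an accepting computation which relies only on the absence of edges is
larger by at least `δ` on every undirected graph in which `t` is not reachable from `s` than on
every undirected graph with a walk of at most `d` edges from `s` to `t`.

With `lam n S = log (n / S)`, `kap n S d = min (log d) (lam n S)`:
`phi n S d = kap * lam - kap ^ 2 / 2` and `err n S d = log n + kap * log log n` (base two).
For `d = n` (reachability) `phi n S n = (log (n / S)) ^ 2 / 2`.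
-/

namespace Pool.Agent.Results.MP_e46137_lc.NondeterministicUnreachability

open SharpTS Cert

theorem result : ∃ c : ℝ, 0 < c ∧ ∀ (n d : ℕ) (s t : Fin n), 4 ≤ n → 2 ≤ d → d ≤ n → s ≠ t →
    -- space: at most `n / (c (log n) ^ 5)` present arcs do not help
    (∀ m : ℕ, c * Real.logb 2 n ^ 5 * m ≤ n → ∀ (W : Type) [Fintype W] (M : Cert.Mach n W),
      M.Clockless →
      (∀ G : Fin n → Fin n → Bool, (∀ a b, G a b = G b a) →
        (∃ l ≤ d, HasWalk G l s t) → ∀ T, ¬ M.AcceptsUsing T m G) →
      1 ≤ cutProb s t (fun G => ∃ T, M.AcceptsUsing T m G) * 2 ^ m →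
      phi n 1 d - c * err n 1 d ≤ Real.logb 2 (Fintype.card W)) ∧
    -- space: this is optimal, without any present arc
    (∃ (W : Type) (_ : Fintype W) (M : Cert.Mach n W), M.Clockless ∧
      Real.logb 2 (Fintype.card W) ≤ phi n 1 d + c * err n 1 d ∧
      ∀ G : Fin n → Fin n → Bool,
        ((∃ l ≤ d, HasWalk G l s t) → ∀ T, ¬ M.Accepts T G) ∧
        (¬ Reach G s t → ∃ T, M.AcceptsUsing T 0 G)) ∧
    -- space: `n - 1` present arcs make it logarithmic (Immerman and Szelepcsényi)
    (∃ (W : Type) (_ : Fintype W) (M : Cert.Mach n W), M.Clockless ∧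
      Real.logb 2 (Fintype.card W) ≤ c * Real.logb 2 n ∧
      ∀ G : Fin n → Fin n → Bool,
        (Reach G s t → ∀ T, ¬ M.Accepts T G) ∧
        (¬ Reach G s t → ∃ T, M.AcceptsUsing T (n - 1) G)) ∧
    -- time
    (∀ S m T : ℕ, 1 ≤ S → S ≤ n → c * Real.logb 2 n ^ 5 * m ≤ n →
      ∀ (W : Type) [Fintype W] (M : Cert.Mach n W), Fintype.card W ≤ 2 ^ S →
      (∀ G : Fin n → Fin n → Bool, (∀ a b, G a b = G b a) →
        (∃ l ≤ d, HasWalk G l s t) → ¬ M.AcceptsUsing T m G) →
      1 ≤ cutProb s t (M.AcceptsUsing T m) * 2 ^ m →
      phi n S d - c * err n S d ≤ Real.logb 2 T) ∧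
    (∀ S : ℕ, 1 ≤ S → S ≤ n →
      -- probabilistic machines
      (∀ (T : ℕ) (W : Type) [Fintype W] (Ω : Type) [Fintype Ω] (p : Ω → ℝ)
        (M : Ω → Cert.Mach n W) (δ : ℝ), Fintype.card W ≤ 2 ^ S → (∀ ω, 0 ≤ p ω) →
        ∑ ω, p ω = 1 → 0 < δ → Certifies p M T d s t δ →
        phi n S d - c * err n S d ≤ Real.logb 2 (T / δ)) ∧
      -- the average case
      (c * Real.logb 2 n ^ 9 * S * d ≤ n →
        ∀ (T : ℕ) (W : Type) [Fintype W] (M : Cert.Mach n W), Fintype.card W ≤ 2 ^ S →
        cutProb s t (M.AcceptsUsing T 0) ≤ pathProb d s t (M.AcceptsUsing T 0) +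
          T * (2 : ℝ) ^ (-(phi n S d - c * err n S d))) ∧
      -- the time is optimal, for deterministic monotone straight line programs
      (c * Real.logb 2 n ≤ S → ∃ S' ≤ S, ∃ (M : SharpTS.Mach n S') (out : Fin S') (T : ℕ),
        1 ≤ T ∧ M.Simple ∧ Decides M out T d s t ∧
        Real.logb 2 T ≤ phi n S d + c * err n S d) ∧
      phi n S n = lam n S ^ 2 / 2) ∧
    -- deterministic monotone machines are a special case
    (∀ (S : ℕ) (M : SharpTS.Mach n S) (out : Fin S),
      ∃ M' : Cert.Mach n (Fin S → Bool), ∀ (T : ℕ) (G : Fin n → Fin n → Bool),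
        (M'.AcceptsUsing T 0 G ↔ M.run G T out = false) ∧
        (M'.Accepts T G ↔ M.run G T out = false)) :=
  MTV.main

end Pool.Agent.Results.MP_e46137_lc.NondeterministicUnreachability
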