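import Pool.Agent.Lib.NotG.Final

namespace Pool.Agent.Results.MP_e46137_lc.NotGates

open Pool.Agent.Lib.Pe46137 Pool.Agent.Lib.Pe46137X MonSize NotG

/-- **NOT gates save nothing.** The problem: `L` digraphs on `Fin n` are given, accept if one of them
has a walk of at most `ℓ` arcs from `s` to `t`, reject if `t` is unreachable from `s` in all of them.
If the products `∏ (k j + 1)` are at most `L`, circuits with `k j` NOT gates of negation level `j` and
adaptive programs with `k j` monotone formulas or switching networks in round `j` are not better than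
monotone ones, whose complexity is `mainTerm n ℓ`; the same for formulas with less than `L / 5` NOT
gates. Then the average case, and the same lower bounds for more NOT gates (`L = 1` is reachability
itself). -/
theorem result : ∃ C : ℝ, 0 < C ∧ ∀ (n : ℕ) (s t : Fin n), s ≠ t → ∀ ℓ : ℕ, 1 ≤ ℓ → ℓ ≤ n →
    ∀ 𝒢 : Set (Fin n × Fin n) → Prop, (∀ G, Undirected G → 𝒢 G) →
    (∀ L : ℕ, 2 ≤ L →
      (∀ W : ℕ, 1 ≤ W → W ≤ L →
        |(circuitDepth 𝒢 L W s t ℓ : ℝ) - mainTerm n ℓ| ≤ C * (errTerm n ℓ + Real.logb 2 L) ∧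
        |Real.logb 2 (programSize L ByMono 𝒢 W s t ℓ) - mainTerm n ℓ| ≤
          C * (errTerm n ℓ + Real.logb 2 L) ∧
        |Real.logb 2 (programSize L ByNet (fun _ => True) W s t ℓ) - mainTerm n ℓ| ≤
          C * (errTerm n ℓ + Real.logb 2 L)) ∧
      (∀ T : ℕ, 5 * T < L →
        |Real.logb 2 (formulaLeaves 𝒢 L T s t ℓ) - mainTerm n ℓ| ≤
          C * (errTerm n ℓ + Real.logb 2 L)) ∧
      (∀ c : List (Gate (Var L n)), negCost c ≤ 2 ^ (notLevels c).length) ∧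
      (C * Real.logb 2 n ^ 9 * ℓ ≤ n → ∀ W m : ℕ,
        (∀ c : List (Gate (Var L n)), negCost c ≤ W → depth c ≤ m →
          advL (Computes c) ℓ s t (pathEdges s t) cutEdges ≤ ((W : ℝ) - 1) / L +
            W * 2 ^ m * (2 : ℝ) ^ (-(mainTerm n ℓ - C * errTerm n ℓ))) ∧
        (∀ F : NFormula (Var L n), 5 * F.nots < W → F.leaves ≤ m →
          advL F.Eval ℓ s t (pathEdges s t) cutEdges ≤ ((W : ℝ) - 1) / L +
            W * m * (2 : ℝ) ^ (-(mainTerm n ℓ - C * errTerm n ℓ))) ∧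
        (∀ (ks : List ℕ) (f : Set (Var L n) → Prop), (ks.map (· + 1)).prod ≤ W →
          (Adaptive (ByMono m) ks f → advL f ℓ s t (pathEdges s t) cutEdges ≤
            ((W : ℝ) - 1) / L + W * m * (2 : ℝ) ^ (-(mainTerm n ℓ - C * errTerm n ℓ))) ∧
          (Adaptive (ByNet m) ks f → advL f ℓ s t (pathArcs s t) cutArcs ≤
            ((W : ℝ) - 1) / L + W * m * (2 : ℝ) ^ (-(mainTerm n ℓ - C * errTerm n ℓ)))))) ∧
    (∀ L n' ℓ' K : ℕ, 1 ≤ ℓ' → ℓ' ≤ ℓ → ℓ' ≤ n' → K * n' ≤ n → 2 ≤ L * K →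
      (∀ W : ℕ, 1 ≤ W → W ≤ L * K →
        mainTerm n' ℓ' - C * (errTerm n' ℓ' + Real.logb 2 (L * K)) ≤
          circuitDepth 𝒢 L W s t ℓ ∧
        mainTerm n' ℓ' - C * (errTerm n' ℓ' + Real.logb 2 (L * K)) ≤
          Real.logb 2 (programSize L ByMono 𝒢 W s t ℓ) ∧
        mainTerm n' ℓ' - C * (errTerm n' ℓ' + Real.logb 2 (L * K)) ≤
          Real.logb 2 (programSize L ByNet (fun _ => True) W s t ℓ)) ∧
      ∀ T : ℕ, 5 * T < L * K →
        mainTerm n' ℓ' - C * (errTerm n' ℓ' + Real.logb 2 (L * K)) ≤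
          Real.logb 2 (formulaLeaves 𝒢 L T s t ℓ)) := by
  obtain ⟨C, hC, h⟩ := NotG.final
  refine ⟨C, hC, fun n s t hst ℓ hℓ hℓn 𝒢 h𝒢 => ⟨fun L hL => ?_, fun L n' ℓ' K => ?_⟩⟩
  · obtain ⟨h1, h2, h3, -⟩ := h n s t hst ℓ hℓ hℓn L (by omega) 𝒢 h𝒢
    exact ⟨h1, h2, fun c => negCost_le c, h3⟩
  · intro hℓ' hℓℓ' hℓn' hKn hLK
    have hL : 1 ≤ L := by
      rcases Nat.eq_zero_or_pos L with h0 | h0
      · rw [h0] at hLK
        omega
      · exact h0
    have hK : 1 ≤ K := by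
      rcases Nat.eq_zero_or_pos K with h0 | h0
      · rw [h0] at hLK
        omega
      · exact h0
    obtain ⟨-, -, -, h4⟩ := h n s t hst ℓ hℓ hℓn L hL 𝒢 h𝒢
    exact h4 n' ℓ' K hℓ' hℓℓ' hℓn' hK hKn

end Pool.Agent.Results.MP_e46137_lc.NotGates
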