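import Pool.Agent.Lib.MTX.FinalA

/-!
The sharp time-space tradeoff for monotone computation of s-t reachability.

The definitions are in `Pool/Agent/Lib/MTX/Model.lean` and `Pool/Agent/Lib/MTX/ModelA.lean`.
`Mach n S`: (nonuniform) monotone machine with `S` bits of memory for digraphs on `n` vertices; step
`t` reads all arcs incident to one vertex, which depends on `t` and on the memory, and applies an
arbitrary monotone map to the memory and these arcs.  `Mach.Simple`: straight-line program, every
step writes a constant, one input bit, the AND or the OR of two memory bits to one memory bit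
(monotone circuit of width `S`).  `Decides M out T d s t`: after `T` steps the output bit is true if
there is a walk from `s` to `t` with at most `d` arcs, and false if `t` is not reachable from `s`.
`GapP p M out T d s t δ`: a probabilistic machine (finite probability space of machines) accepts every
undirected graph with a walk of at most `d` edges from `s` to `t` with probability larger by at least
`δ` than every undirected graph in which `t` is not reachable from `s`.  `accPath`, `accCut`: the
probability that a machine accepts a random path with `d` edges from `s` to `t`, and the union of two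
cliques which separate `s` from `t`, for a random cut.

With `lam n S = log (n / S)`, `kap n S d = min (log d) (lam n S)`:
`phi n S d = kap * lam - kap ^ 2 / 2` and `err n S d = log n + kap * log log n` (base two).
For `d = n` (reachability) `phi n S n = (log (n / S)) ^ 2 / 2`.
-/

namespace Pool.Agent.Lib.Reserve.MP_e46137_lc.SharpTimeSpace

open SharpTS

theorem result : ∃ c : ℝ, 0 < c ∧ ∀ (n S d : ℕ) (s t : Fin n), 4 ≤ n → 1 ≤ S → S ≤ n → 2 ≤ d →
    d ≤ n → s ≠ t →
    (∀ (T : ℕ) (Ω : Type) [Fintype Ω] (p : Ω → ℝ), (∀ ω, 0 ≤ p ω) → ∑ ω, p ω = 1 →
      ∀ (M : Ω → Mach n S) (out : Ω → Fin S) (δ : ℝ), 0 < δ → GapP p M out T d s t δ →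
      phi n S d - c * err n S d ≤ Real.logb 2 (T / δ)) ∧
    (c * Real.logb 2 n ^ 7 * S * d ≤ n → ∀ (T : ℕ) (M : Mach n S) (out : Fin S),
      accPath M out T d s t - accCut M out T s t ≤
        T * (2 : ℝ) ^ (-(phi n S d - c * err n S d))) ∧
    (c * Real.logb 2 n ≤ S → ∃ S' ≤ S, ∃ (M : Mach n S') (out : Fin S') (T : ℕ),
      1 ≤ T ∧ M.Simple ∧ Decides M out T d s t ∧
      Real.logb 2 T ≤ phi n S d + c * err n S d) ∧
    phi n S n = lam n S ^ 2 / 2 :=
  MTX.finalA

end Pool.Agent.Lib.Reserve.MP_e46137_lc.SharpTimeSpace
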