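import Pool.Agent.Lib.Pe46137.Sym.PriceCost
import Pool.Agent.Lib.Pe46137.SymP.Lower

/-!
# The price of symmetry for directed reachability

Undirected switching networks of polynomial size are non-uniform logarithmic space, and directed
reachability is complete for NLOGSPACE. How much symmetry can such a network have? Here a network
has to be invariant only under the renamings that move the vertices of a set `U` of `m` vertices
(everything may depend on the other vertices). This costs a factor between `m ^ ((1 - ε) log m)`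
(over one) and `m ^ ((1 + ε) log m)` (over an arbitrary network). The lower bound holds for guarded
contacts and for the subgroups of index at most `2 ^ √m` of the symmetric group of `U`.
-/

namespace Pool.Agent.Results.MP_e46137_lc.SymmetryPrice

open Pool.Agent.Lib.Pe46137 Pool.Agent.Lib.Pe46137.Sym Pool.Agent.Lib.Pe46137.SymP

theorem result :
    (∀ ε : ℝ, 0 < ε → ∃ m₀ : ℕ, ∀ (n : ℕ) (s t : Fin n) (U : Finset (Fin n)), s ≠ t → s ∉ U →
      t ∉ U → m₀ ≤ U.card →
      (∀ H : Subgroup (Equiv.Perm U), (H.index : ℝ) ≤ 2 ^ Real.sqrt U.card →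
        ∀ (W : Type) [Fintype W] (N : Network (Fin n) W), InvariantUnder N U H →
        (∀ G : Set (Fin n × Fin n), Acyclic G →
          (∀ e ∈ G, e.1 ∈ insert s (insert t U) ∧ e.2 ∈ insert s (insert t U)) →
          (N.Accepts G ↔ Reachable G s t)) →
        (U.card : ℝ) ^ ((1 - ε) * Real.logb 2 U.card) ≤ Fintype.card W) ∧
      ∀ (k : ℕ) (a b : Fin k) (W₀ : Type) [Fintype W₀]
        (N₀ : SwitchingNetwork (Fin k × Fin k) W₀), n ≤ k + U.card → a ≠ b →
        N₀.DecidesOn Set.univ a b →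
        ∃ (W : Type) (_ : Fintype W) (N : SwitchingNetwork (Fin n × Fin n) W),
          N.InvariantOn (U : Set (Fin n)) ∧ N.DecidesOn Set.univ s t ∧
          (N₀.Avoids Set.univ → N.Avoids Set.univ) ∧
          (Fintype.card W : ℝ) ≤
            Fintype.card W₀ * (U.card : ℝ) ^ ((1 + ε) * Real.logb 2 U.card)) ∧
    ∀ (s t : ∀ n : ℕ, Fin (n + 2)) (U : ∀ n : ℕ, Finset (Fin (n + 2))),
      (∀ n, s n ≠ t n) → (∀ n, s n ∉ U n) → (∀ n, t n ∉ U n) →
      ((∃ c : ℕ, ∀ n, symCost (s n) (t n) (U n : Set (Fin (n + 2))) ≤ (n + 2) ^ c) ↔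
      (∃ c : ℕ, ∀ n, symCost (s n) (t n) ∅ ≤ (n + 2) ^ c) ∧
        ∃ c : ℝ, ∀ n, (Real.logb 2 (U n).card) ^ 2 ≤ c * Real.logb 2 ((n + 2 : ℕ) : ℝ)) := by
  refine ⟨fun ε hε => ?_, poly_iff⟩
  obtain ⟨m₁, h₁⟩ := lower_U ε hε
  obtain ⟨m₂, h₂⟩ := upper_sym ε hε
  refine ⟨max m₁ m₂, fun n s t U hst hs ht hm => ⟨?_, ?_⟩⟩
  · intro H hH W _ N hN hdec
    exact h₁ n s t hst U hs ht (le_trans (le_max_left _ _) hm) H hH W N hN hdec
  · exact h₂ n s t U hst hs ht (le_trans (le_max_right _ _) hm)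

end Pool.Agent.Results.MP_e46137_lc.SymmetryPrice
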